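import Pool.Agent.H61.CM4.TargetsB

/-!
# CM4, row B1_SKC: sums of kernels
-/

set_option autoImplicit false

open MeasureTheory Set Filter NumberField NumberField.InfinitePlace NumberField.Units
  NumberField.Units.dirichletUnitTheorem Pool.Agent.H65.CM4 Pool.Agent.H25.HK Pool.Agent.H61.CM4
open scoped Real

namespace Pool.Agent.H73.CM4B

/-- (SKC) sums of kernels. -/
theorem pf_SKC (_hKIN : T_KIN) (hKSH : T_KSH) : T_SKC := by
  intro n s ι a hs1 hs2 ha hsum
  have hcount : Countable ι := by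
    have h := hsum.countable_support
    have hu : (Function.support fun i => (a i) ^ (-2 : ℝ)) = Set.univ := by
      ext i
      simp only [Function.mem_support, ne_eq, Set.mem_univ, iff_true]
      exact (Real.rpow_pos_of_pos (ha i) _).ne'
    rw [hu] at h
    exact Set.countable_univ_iff.mp h
  set G : ℝ → ℂ := fun t => gG (2 + t * Complex.I) ^ n *
    (Complex.exp ((2 + t * Complex.I - s) ^ 2) / (2 + t * Complex.I - s)) with hG
  have hslit : ∀ i, ((a i : ℝ) : ℂ) ∈ Complex.slitPlane := fun i =>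
    Complex.ofReal_mem_slitPlane.mpr (ha i)
  have hF : ∀ i, Integrable (fun t : ℝ => G t * ((a i : ℝ) : ℂ) ^ (-(2 + t * Complex.I))) := by
    intro i
    have h := (hKSH n s ((a i : ℝ) : ℂ) 2 hs1 hs2 hs2 (by norm_num) (hslit i)).1
    simpa only [Complex.ofReal_ofNat] using h
  have hGi : Integrable G := by
    have h := (hKSH n s 1 2 hs1 hs2 hs2 (by norm_num) Complex.one_mem_slitPlane).1
    simpa only [Complex.ofReal_ofNat, Complex.one_cpow, mul_one] using h
  have hnorm : ∀ i, ∀ t : ℝ, ‖G t * ((a i : ℝ) : ℂ) ^ (-(2 + t * Complex.I))‖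
      = (a i) ^ (-2 : ℝ) * ‖G t‖ := by
    intro i t
    rw [norm_mul, Complex.norm_cpow_eq_rpow_re_of_pos (ha i), mul_comm]
    simp
  have hint : ∀ i, ∫ t : ℝ, ‖G t * ((a i : ℝ) : ℂ) ^ (-(2 + t * Complex.I))‖
      = (a i) ^ (-2 : ℝ) * ∫ t : ℝ, ‖G t‖ := by
    intro i
    simp only [hnorm i]
    exact integral_const_mul _ _
  have hsum2 : Summable fun i => ∫ t : ℝ, ‖G t * ((a i : ℝ) : ℂ) ^ (-(2 + t * Complex.I))‖ := by
    simp only [hint]
    exact hsum.mul_right _
  have hK : ∀ i, Kc n s ((a i : ℝ) : ℂ) = ((1 / (2 * π) : ℝ) : ℂ) *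
      ∫ t : ℝ, G t * ((a i : ℝ) : ℂ) ^ (-(2 + t * Complex.I)) := fun i => rfl
  constructor
  · refine Summable.of_nonneg_of_le (fun i => norm_nonneg _) (fun i => ?_)
      (hsum2.mul_left ‖((1 / (2 * π) : ℝ) : ℂ)‖)
    rw [hK i, norm_mul]
    exact mul_le_mul_of_nonneg_left (norm_integral_le_integral_norm _) (norm_nonneg _)
  · have hs := (hasSum_integral_of_summable_integral_norm hF hsum2).tsum_eq
    simp only [hK]
    rw [tsum_mul_left, hs]
    congr 1
    refine integral_congr_ae (Filter.Eventually.of_forall fun t => ?_)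
    simp only [hG]
    rw [tsum_mul_left]
    ring

end Pool.Agent.H73.CM4B
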